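import Pool.Agent.Y489.PH.Stm2
import Pool.Agent.Y485.HS.Loc

/-!
Project PH (helper489), task BA2: the Baire argument, transport to the origin of the coset.
-/

set_option autoImplicit false
set_option linter.unusedSectionVars false

open MeasureTheory Set Metric Filter Topology
open scoped ENNReal NNReal

namespace Pool.Agent.Y570.PH.BA2

open Pool.Agent.Y485.HS Pool.Agent.Y489.PH

variable {n : ℕ} {H : Type} [Group H] [TopologicalSpace H] [IsTopologicalGroup H]
  {T : H → E n → E n}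

lemma BB_nhds {x : E n} (hx : ‖x‖ < 4) : BB n ∈ 𝓝 x := by
  refine mem_of_superset (isOpen_ball.mem_nhds (mem_ball_zero_iff.2 hx)) ?_
  exact ball_subset_closedBall

lemma cont_at (hT : LocAct n H T) (h : H) {x : E n} (hx : ‖x‖ < 4) : ContinuousAt (T h) x :=
  (hT.cont_right h).continuousAt (BB_nhds hx)

lemma near_le {x : E n} {r : ℝ} (hx : ‖x‖ < r) : ∀ᶠ z in 𝓝 x, ‖z‖ < r :=
  (continuous_norm.tendsto x).eventually_lt_const hx

/-- the conjugated subgroup -/
def cj (g : H) (K : Subgroup H) : Subgroup H := K.comap (MulAut.conj g).toMonoidHom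

lemma mem_cj {g : H} {K : Subgroup H} {h : H} : h ∈ cj g K ↔ g * h * g⁻¹ ∈ K := Iff.rfl

lemma open_cj {g : H} {K : Subgroup H} (hK : IsOpen (K : Set H)) : IsOpen (cj g K : Set H) := by
  have h1 : Continuous (fun h : H => g * h * g⁻¹) := by fun_prop
  exact hK.preimage h1

/-- points of the orbit -/
lemma triv_of_triv (hT : LocAct n H T) (g : H) {x : E n} (hx : ‖x‖ < 3) (h : Triv T (T g x)) :
    Triv T x := by
  obtain ⟨K, hK, hev⟩ := h
  refine ⟨cj g K, open_cj hK, ?_⟩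
  have h1 := (cont_at hT g (show ‖x‖ < 4 by linarith)).eventually hev
  filter_upwards [h1, near_le hx] with z hz hz3 k hk
  have hzB : z ∈ BB n := mem_BB.2 (by linarith)
  have hgz : T g z ∈ BB n := mem_BB.2 (by have := norm_T_le hT g hzB; linarith)
  have h2 : T (g * k * g⁻¹) (T g z) = T g z := hz _ (mem_cj.1 hk)
  have h3 : T (g * k * g⁻¹ * g) z = T g z := by
    rw [hT.mul _ _ z hzB hgz, h2]
  rw [inv_mul_cancel_right] at h3
  have h4 : T (g⁻¹ * (g * k)) z = T g⁻¹ (T (g * k) z) :=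
    hT.mul _ _ z hzB (by rw [h3]; exact hgz)
  rw [inv_mul_cancel_left, h3, hT.inv g hzB hgz] at h4
  exact h4

theorem t_BA : S_BA1 → S_BA := by
  intro hBA1 n H _ _ _ _ _ _ T hT hPL hy
  obtain ⟨y1, hy1, hnt, ρ1, hρ1, hsub, hcase⟩ := hBA1 n H T hT hPL hy
  have hy1n : ‖y1‖ < 1 := mem_ball_zero_iff.1 hy1
  rcases hcase with hA | ⟨h0, K0, m, hK0, hbd⟩
  · refine ⟨y1, ball_subset_ball (by norm_num) hy1, hnt, ⊤, ρ1, {y1}, ?_, hρ1,
      countable_singleton _, ?_⟩
    · simp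
    · intro x hx hxy
      exact Or.inl (hA x hx hxy)
  · have hy1B : y1 ∈ BB n := mem_BB.2 (by linarith)
    have hyn : ‖T h0 y1‖ < 2 := by
      have := norm_T_le hT h0 hy1B
      linarith
    have hyB : T h0 y1 ∈ BB n := mem_BB.2 (by linarith)
    have hinv : T h0⁻¹ (T h0 y1) = y1 := hT.inv h0 hy1B hyB
    -- the radius
    have hc := cont_at hT h0⁻¹ (show ‖T h0 y1‖ < 4 by linarith)
    have hev1 : ∀ᶠ x in 𝓝 (T h0 y1), dist (T h0⁻¹ x) y1 < ρ1 := by
      have h1 : ball y1 ρ1 ∈ 𝓝 (T h0⁻¹ (T h0 y1)) := by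
        rw [hinv]
        exact ball_mem_nhds _ hρ1
      exact hc.eventually h1
    obtain ⟨ρ, hρ, hball⟩ := Metric.eventually_nhds_iff.1 (hev1.and (near_le hyn))
    refine ⟨T h0 y1, mem_ball_zero_iff.2 hyn, ?_, cj h0⁻¹ K0, ρ,
      {x : E n | x ∈ ball (0 : E n) 4 ∧ ¬ PL (T h0⁻¹) x}, open_cj hK0, hρ, hPL h0⁻¹, ?_⟩
    · intro h
      exact hnt (triv_of_triv hT h0 (by linarith) h)
    · intro x hx hxZ
      obtain ⟨hx1, hx2⟩ := hball (mem_ball.1 hx)
      by_cases htr : Triv T (T h0⁻¹ x)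
      · exact Or.inl (triv_of_triv hT h0⁻¹ (by linarith) htr)
      · right
        have hx4 : x ∈ ball (0 : E n) 4 := mem_ball_zero_iff.2 (by linarith)
        have hPx : PL (T h0⁻¹) x := by
          by_contra hcon
          exact hxZ ⟨hx4, hcon⟩
        obtain ⟨N, δ, hδ, hN⟩ := hPx
        have hm : (0 : ℝ) < 1 / ((m : ℝ) + 1) := by positivity
        have hcx := cont_at hT h0⁻¹ (show ‖x‖ < 4 by linarith)
        have hev2 : ∀ᶠ z in 𝓝 x, dist (T h0⁻¹ z) (T h0⁻¹ x) < 1 / ((m : ℝ) + 1) :=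
          hcx.eventually (ball_mem_nhds _ hm)
        obtain ⟨δ2, hδ2, hb2⟩ := Metric.eventually_nhds_iff.1
          (hev2.and (near_le (show ‖x‖ < 3 by linarith)))
        have hxB : x ∈ BB n := mem_BB.2 (by linarith)
        have hx'B : T h0⁻¹ x ∈ BB n := mem_BB.2 (by
          have := norm_T_le hT h0⁻¹ hxB
          linarith)
        refine ⟨m * N, min δ δ2, lt_min hδ hδ2, ?_⟩
        intro k hk z hz hzx
        obtain ⟨hz1, hz2⟩ := hb2 (lt_of_lt_of_le hzx (min_le_right _ _))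
        have hz'B : T h0⁻¹ z ∈ BB n := mem_BB.2 (by
          have := norm_T_le hT h0⁻¹ hz
          linarith)
        have hκ : h0⁻¹ * k * h0 ∈ K0 := by
          have := mem_cj.1 hk
          rwa [inv_inv] at this
        have hcalc : h0 * (h0⁻¹ * k * h0) * h0⁻¹ = k := by group
        have e1 : T k z = T (h0 * (h0⁻¹ * k * h0)) (T h0⁻¹ z) := by
          rw [← hT.mul _ _ z hz hz'B, hcalc]
        have e2 : T k x = T (h0 * (h0⁻¹ * k * h0)) (T h0⁻¹ x) := by
          rw [← hT.mul _ _ x hxB hx'B, hcalc]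
        have e3 := hbd _ hκ (T h0⁻¹ x) (mem_ball.2 hx1) htr (T h0⁻¹ z) hz'B hz1
        rw [← e1, ← e2] at e3
        have e4 := hN z hz (lt_of_lt_of_le hzx (min_le_left _ _))
        calc dist (T k z) (T k x) ≤ m * dist (T h0⁻¹ z) (T h0⁻¹ x) := e3
          _ ≤ m * (N * dist z x) := mul_le_mul_of_nonneg_left e4 (Nat.cast_nonneg m)
          _ = m * N * dist z x := by ring

end Pool.Agent.Y570.PH.BA2
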